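import Pool.Agent.Helper45.LGB.St

set_option autoImplicit false

/-!
Project LGB, module FIL: the filtration by the number of Lie factors.
-/

namespace Pool.Agent.Helper29.LGB

open Pool.Agent.Helper45.LGB

private lemma prod_cons_FIL {p : ℕ} {V : Type} [AddCommGroup V] [Module (ZMod p) V]
    (ν : Module.End (ZMod p) V) (l : List (Module.End (ZMod p) V)) (w : V) :
    (ν :: l).prod w = ν (l.prod w) := by
  rw [List.prod_cons]
  rfl

private lemma mem_Mf_FIL {p : ℕ} {ι V : Type} [AddCommGroup V] [Module (ZMod p) V]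
    (f : ι → Module.End (ZMod p) V) (Y : Set ι) (v : V) (W' : Submodule (ZMod p) V) (k : ℕ)
    (l : List (Module.End (ZMod p) V)) (hl : l.length ≤ k) (hL : ∀ ν ∈ l, Lam f Y ν) :
    l.prod v ∈ Mf f Y v W' k :=
  (le_sup_left : _ ≤ Mf f Y v W' k) (Submodule.subset_span ⟨l, hl, hL, rfl⟩)

private lemma perm_FIL {p : ℕ} {ι V : Type} [AddCommGroup V] [Module (ZMod p) V]
    (f : ι → Module.End (ZMod p) V) (Y : Set ι) (v : V) (W' : Submodule (ZMod p) V) (k : ℕ)
    {l l' : List (Module.End (ZMod p) V)} (h : l.Perm l') :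
    ∀ a : List (Module.End (ZMod p) V), (∀ ν ∈ a, Lam f Y ν) → (∀ ν ∈ l, Lam f Y ν) →
      (a ++ l).length ≤ k + 1 → (a ++ l).prod v - (a ++ l').prod v ∈ Mf f Y v W' k := by
  induction h with
  | nil =>
    intro a _ _ _
    rw [sub_self]
    exact Submodule.zero_mem _
  | cons x h ih =>
    intro a ha hl hlen
    rename_i l1 l2
    have e1 : ∀ l0 : List (Module.End (ZMod p) V), a ++ x :: l0 = (a ++ [x]) ++ l0 := by
      intro l0
      simp
    rw [e1 l1, e1 l2]
    refine ih (a ++ [x]) ?_ ?_ ?_
    · intro ν hν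
      rcases List.mem_append.mp hν with h1 | h1
      · exact ha ν h1
      · rw [List.mem_singleton] at h1
        rw [h1]
        exact hl x List.mem_cons_self
    · intro ν hν
      exact hl ν (List.mem_cons_of_mem x hν)
    · rw [← e1 l1]
      exact hlen
  | swap x y l0 =>
    intro a ha hl hlen
    have e1 : (a ++ y :: x :: l0).prod v - (a ++ x :: y :: l0).prod v =
        (a ++ cb y x :: l0).prod v := by
      rw [← LinearMap.sub_apply]
      congr 1
      simp only [List.prod_append, List.prod_cons, cb]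
      noncomm_ring
    rw [e1]
    refine mem_Mf_FIL f Y v W' k _ ?_ ?_
    · simp only [List.length_append, List.length_cons] at hlen ⊢
      omega
    · intro ν hν
      rcases List.mem_append.mp hν with h1 | h1
      · exact ha ν h1
      · rcases List.mem_cons.mp h1 with h2 | h2
        · rw [h2]
          refine Lam.lie _ _ (hl y List.mem_cons_self) (hl x ?_)
          exact List.mem_cons_of_mem _ List.mem_cons_self
        · exact hl ν (List.mem_cons_of_mem _ (List.mem_cons_of_mem _ h2))
  | trans h1 h2 ih1 ih2 =>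
    intro a ha hl hlen
    rename_i l1 l2 l3
    have h3 := ih1 a ha hl hlen
    have h4 := ih2 a ha (fun ν hν => hl ν (h1.mem_iff.mpr hν)) (by
      rw [List.length_append] at hlen ⊢
      rw [← h1.length_eq]
      exact hlen)
    have h5 := Submodule.add_mem _ h3 h4
    rwa [sub_add_sub_cancel] at h5

theorem hFIL (hLST : StLST) : StFIL := by
  intro p ι V _ _ f Y W W' v hWW hW hW' hv
  obtain ⟨hL1, -⟩ := hLST p ι V f Y
  have h4 : ∀ (k : ℕ) (ν : Module.End (ZMod p) V), Lam f Y ν → ∀ w ∈ Mf f Y v W' k,
      ν w ∈ Mf f Y v W' (k + 1) := by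
    intro k ν hν w hw
    have hle : Mf f Y v W' k ≤ (Mf f Y v W' (k + 1)).comap ν := by
      refine sup_le (Submodule.span_le.mpr ?_) ?_
      · rintro z ⟨l, hl, hL, rfl⟩
        show ν (l.prod v) ∈ Mf f Y v W' (k + 1)
        rw [← prod_cons_FIL]
        refine mem_Mf_FIL f Y v W' (k + 1) _ ?_ ?_
        · rw [List.length_cons]
          omega
        · intro μ hμ
          rcases List.mem_cons.mp hμ with h1 | h1
          · rw [h1]
            exact hν
          · exact hL μ h1
      · intro z hz
        exact (le_sup_right : W' ≤ Mf f Y v W' (k + 1)) (hL1 W' hW' ν hν z hz)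
    exact hle hw
  refine ⟨?_, ?_, ?_, h4, ?_, ?_⟩
  · intro k k' hkk
    refine sup_le_sup_right (Submodule.span_mono ?_) W'
    rintro z ⟨l, hl, hL, rfl⟩
    exact ⟨l, hl.trans hkk, hL, rfl⟩
  · intro k
    refine ⟨le_sup_right, sup_le (Submodule.span_le.mpr ?_) hWW⟩
    rintro z ⟨l, -, hL, rfl⟩
    show l.prod v ∈ W
    clear h4
    induction l with
    | nil => exact hv
    | cons ν l ih =>
      rw [prod_cons_FIL]
      exact hL1 W hW ν (hL ν List.mem_cons_self) _
        (ih (fun μ hμ => hL μ (List.mem_cons_of_mem _ hμ)))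
  · have h := mem_Mf_FIL f Y v W' 0 [] le_rfl (by simp)
    exact h
  · intro k l l' hL hp hlen
    have h := perm_FIL f Y v W' k hp [] (by simp) hL (by simpa using hlen)
    simpa using h
  · intro k l hL w hw
    induction l with
    | nil => exact hw
    | cons ν l ih =>
      rw [prod_cons_FIL]
      have h := h4 (k + l.length) ν (hL ν List.mem_cons_self) _
        (ih (fun μ hμ => hL μ (List.mem_cons_of_mem _ hμ)))
      exact h

end Pool.Agent.Helper29.LGB
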